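import Pool.Agent.Helper77.RL.Goals2

/-!
# Project RL, packet TRV: the twisted Selmer group over `M'` is trivial
-/

namespace Pool.Agent.Helper9.RL

open NumberField Polynomial Module IsDedekindDomain Pool.Agent.Helper51.SigLeo
open Pool.Agent.Helper51.RP
open Pool.Agent.Helper42.RD (IsDat LocD Match TSet)
open Pool.Agent.Helper77.RL

section

variable {K L M' : Type} [Field K] [Field L] [Field M'] [Algebra K L] [Algebra K M'] [Algebra L M']
  [IsScalarTower K L M']

/-- Powers and restriction of scalars. -/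
theorem rs_pow (δL : M' ≃ₐ[L] M') (j : ℕ) (x : M') :
    ((AlgEquiv.restrictScalars K δL) ^ j) x = (δL ^ j) x := by
  induction j generalizing x with
  | zero => rfl
  | succ j ih =>
    rw [pow_succ, pow_succ, AlgEquiv.mul_apply, AlgEquiv.mul_apply, ih]
    rfl

theorem pol_rs {p : ℕ} (P : (ZMod p)[X]) (δL : M' ≃ₐ[L] M') (x : M'ˣ) :
    pol P (AlgEquiv.restrictScalars K δL) x = pol P δL x := by
  unfold pol
  rw [MonoidHom.finsetProd_apply, MonoidHom.finsetProd_apply]
  refine Finset.prod_congr rfl fun j _ ↦ ?_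
  rw [MonoidHom.pow_apply, MonoidHom.pow_apply]
  congr 1
  ext
  exact rs_pow (K := K) δL j (x : M')

end

section

variable {p n : ℕ} {K M L M' : Type} [Field K] [Field M] [Field L] [Field M'] [Algebra K M]
  [Algebra K L] [Algebra K M'] [Algebra M M'] [Algebra L M'] [IsScalarTower K M M']
  [IsScalarTower K L M']

/-- Two automorphisms over `K` which agree on `M` and `L` are equal. -/
theorem eq_of_agree (hS : Sqr p n K M L M') (f g : M' ≃ₐ[K] M')
    (h1 : ∀ x : M, f (algebraMap M M' x) = g (algebraMap M M' x))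
    (h2 : ∀ y : L, f (algebraMap L M' y) = g (algebraMap L M' y)) : f = g := by
  have h : g⁻¹ * f = 1 := by
    refine hS.gen _ (fun x ↦ ?_) fun y ↦ ?_
    · rw [AlgEquiv.mul_apply, h1]
      exact g.symm_apply_apply _
    · rw [AlgEquiv.mul_apply, h2]
      exact g.symm_apply_apply _
  exact (inv_mul_eq_one.1 h).symm

theorem ext_pow (δ : M ≃ₐ[K] M) (δL : M' ≃ₐ[L] M')
    (hext : ∀ x : M, δL (algebraMap M M' x) = algebraMap M M' (δ x)) (j : ℕ) (x : M) :
    (δL ^ j) (algebraMap M M' x) = algebraMap M M' ((δ ^ j) x) := by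
  induction j generalizing x with
  | zero => rfl
  | succ j ih => rw [pow_succ, pow_succ, AlgEquiv.mul_apply, AlgEquiv.mul_apply, hext, ih]

theorem order_eq (hS : Sqr p n K M L M') (δ : M ≃ₐ[K] M) (δL : M' ≃ₐ[L] M')
    (hext : ∀ x : M, δL (algebraMap M M' x) = algebraMap M M' (δ x)) :
    orderOf δL = orderOf δ := by
  apply Nat.dvd_antisymm
  · apply orderOf_dvd_of_pow_eq_one
    have h : AlgEquiv.restrictScalars K (δL ^ orderOf δ) = 1 := by
      refine hS.gen _ (fun x ↦ ?_) fun y ↦ ?_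
      · change (δL ^ orderOf δ) (algebraMap M M' x) = _
        rw [ext_pow δ δL hext, pow_orderOf_eq_one]
        rfl
      · change (δL ^ orderOf δ) (algebraMap L M' y) = _
        exact AlgEquiv.commutes _ _
    ext x
    exact DFunLike.congr_fun h x
  · apply orderOf_dvd_of_pow_eq_one
    ext x
    apply (algebraMap M M').injective
    rw [← ext_pow δ δL hext, pow_orderOf_eq_one]
    rfl

/-- `δL` commutes with `Gal(M'/M)`. -/
theorem comm_rs (hS : Sqr p n K M L M') (δ : M ≃ₐ[K] M) (δL : M' ≃ₐ[L] M')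
    (hext : ∀ x : M, δL (algebraMap M M' x) = algebraMap M M' (δ x)) (g : M' ≃ₐ[M] M') (y : M') :
    g (δL y) = δL (g y) := by
  have := hS.galL
  set g' : M' ≃ₐ[K] M' := AlgEquiv.restrictScalars K g with hg'
  set d : M' ≃ₐ[K] M' := AlgEquiv.restrictScalars K δL with hd
  have h : g' * d = d * g' := by
    refine eq_of_agree hS _ _ (fun x ↦ ?_) fun z ↦ ?_
    · change g (δL (algebraMap M M' x)) = δL (g (algebraMap M M' x))
      rw [hext, AlgEquiv.commutes, AlgEquiv.commutes, hext]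
    · change g (δL (algebraMap L M' z)) = δL (g' (algebraMap L M' z))
      rw [AlgEquiv.commutes, ← AlgEquiv.restrictNormal_commutes g' L z, AlgEquiv.commutes,
        AlgEquiv.restrictNormal_commutes g' L z]
      rfl
  exact DFunLike.congr_fun h y

theorem above_above {k : Type} [NormedField k] (T : Set (K →+* k)) :
    (above (above T : Set (L →+* k)) : Set (M' →+* k)) =
      (above (above T : Set (M →+* k)) : Set (M' →+* k)) := by
  ext τ
  change (τ.comp (algebraMap L M')).comp (algebraMap K L) ∈ T ↔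
    (τ.comp (algebraMap M M')).comp (algebraMap K M) ∈ T
  rw [RingHom.comp_assoc, RingHom.comp_assoc, ← IsScalarTower.algebraMap_eq,
    ← IsScalarTower.algebraMap_eq]

end

/-- **L_TRV.** -/
theorem l_trv (h1 : L_SQR) (h2 : L_DAT) (h3 : L_MCH) (h4 : L_PRM) (h5 : L_TYP) (h6 : L_LIFT)
    (h7 : Pool.Agent.Helper42.RD.E_MAT) : L_TRV := by
  intro p _ k _ _ _ hk Lg n m K M L M' M₁ M₁' Ω
  intro _ _ _ _ _ _ _ _ _ _ _ _ _ _ _ _ _
    _ _ _ _ _ _ _ _ _ _ _ _ _ _ _ _ _ hS1 hS2
  intro δ δL ζ Φ P hPhi hord hfin hext hTor T hT R al hD hC hSel a ha hMa x hx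
  have : FiniteDimensional K M' := Module.Finite.of_restrictScalars_finite ℚ K M'
  have : FiniteDimensional M M₁' := Module.Finite.of_restrictScalars_finite ℚ M M₁'
  obtain ⟨a1, a2, a3, a4, -⟩ := h1 p n K M L M' hS1
  obtain ⟨b1, b2, b3, b4, -⟩ := h1 p n M M₁ M' M₁' hS2
  have := a3
  have := a4
  have := b4
  have := hS1.galM
  obtain ⟨⟨R', al', hL⟩, hD'⟩ := h2 p n K M L M' hS1 R al hD hC.split
  have hD'' := hD' R' al' hL
  have hMa' := h3 p n K M L M' M₁ M₁' hS1 hS2 R al hD hC.split R' al' hL a hMa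
  have hcop : (finrank M' M₁').Coprime p := by
    rw [b2]
    exact hS2.cop
  have ha' : algebraMap M₁ M₁' a ≠ 0 := by
    rw [_root_.map_ne_zero]
    exact ha
  have hordL : orderOf δL = m := (order_eq hS1 δ δL hext).trans hord
  have hx1 := h7 p k Lg L M' M₁' hcop m δL ζ Φ P hPhi hordL (a2.trans hfin)
    (above T : Set (L →+* k)) R' al' hD'' (algebraMap M₁ M₁' a) ha' hMa' x hx
  have hLD : LData p m n δ (AlgEquiv.restrictScalars K δL) := by
    refine ⟨a3, a1, hext, ?_, fun g y ↦ comm_rs hS1 δ δL hext g y⟩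
    ext y
    rw [rs_pow, ← hordL, pow_orderOf_eq_one]
    rfl
  have hLP := h4 p k hk n K M L M' hS1 T R al hD hC R' al' hL
  have hTor' : TorOK P (AlgEquiv.restrictScalars K δL) := hTor
  refine h6 p k hk Lg K M M' Ω m n δ (AlgEquiv.restrictScalars K δL) ζ Φ P hPhi hord hfin hLD hTor'
    T (h5 p k hk n m K M L M' Ω hS1 δ (AlgEquiv.restrictScalars K δL) ζ Φ P hPhi hLD T hT)
    R (fun w ↦ algebraMap K M (al w)) R' (fun W ↦ algebraMap L M' (al' W)) hLP ?_ x ?_
  · intro y hy
    refine hSel y ⟨hy.pol, fun w ↦ ⟨hy.dvd w, fun hw ↦ hy.tame w hw⟩, hy.sig⟩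
  · refine ⟨?_, fun v hv ↦ (hx1.loc v).1 hv, fun v hv ↦ (hx1.loc v).2 hv, ?_⟩
    · rw [pol_rs]
      exact hx1.pol
    · rw [← above_above (L := L)]
      exact hx1.sig

end Pool.Agent.Helper9.RL
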